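import Pool.Agent.Helper41.OA.Defs

set_option autoImplicit false

/-! Project OA, piece OA-1: Taylor coefficients are unique. -/

namespace Pool.Agent.Helper74.OA

open Pool.Agent.Helper41.OA
open scoped ENNReal NNReal

private theorem hasBall {a : ℕ → ℂ} {φ : ℂ → ℂ} (ha : HasTaylor a φ) :
    HasFPowerSeriesOnBall φ (FormalMultilinearSeries.ofScalars ℂ a) 0 1 := by
  refine ⟨?_, one_pos, ?_⟩
  · refine ENNReal.le_of_forall_nnreal_lt fun r hr => ?_
    have hr1 : (r : ℝ) < 1 := by exact_mod_cast hr
    have h := (ha (r : ℝ) (by simpa using hr1)).summable.norm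
    refine FormalMultilinearSeries.le_radius_of_summable_norm _ ?_
    refine h.congr fun n => ?_
    rw [FormalMultilinearSeries.ofScalars_norm, norm_mul, norm_pow]
    simp
  · intro y hy
    have hy1 : ‖y‖ < 1 := by
      rw [Metric.mem_eball, edist_zero_right] at hy
      have := ENNReal.toReal_lt_toReal (by simp) (by simp) |>.mpr hy
      simpa using this
    have h := ha y hy1
    have e : (fun n => (FormalMultilinearSeries.ofScalars ℂ a n) fun _ : Fin n => y) =
        fun n => a n * y ^ n := by
      funext n
      rw [FormalMultilinearSeries.ofScalars_apply_eq, smul_eq_mul]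
    rw [zero_add, e]
    exact h

/-- OA-1. Taylor coefficients are unique. -/
theorem taylor_unique {a b : ℕ → ℂ} {φ : ℂ → ℂ} (ha : HasTaylor a φ) (hb : HasTaylor b φ) :
    a = b := by
  have h := (hasBall ha).hasFPowerSeriesAt.eq_formalMultilinearSeries
    (hasBall hb).hasFPowerSeriesAt
  funext n
  have h1 := congrArg (fun q : FormalMultilinearSeries ℂ ℂ ℂ => q.coeff n) h
  simpa [FormalMultilinearSeries.coeff_ofScalars] using h1

end Pool.Agent.Helper74.OA
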